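import Pool.Agent.helper73.TF.Spec

set_option autoImplicit false

namespace Pool.Agent.TF

open Matrix Pool.Agent.H48SL

theorem PRC_pos {n : ℕ} (x : Fin n → ℂ) (hx : x ≠ 0) : 0 < nsq x := by
  unfold nsq
  obtain ⟨i, hi⟩ : ∃ i, x i ≠ 0 := by
    by_contra h
    push Not at h
    exact hx (funext h)
  refine lt_of_lt_of_le ?_ (Finset.single_le_sum (f := fun i => ‖x i‖ ^ 2) (fun j _ => by positivity)
    (Finset.mem_univ i))
  have := norm_pos_iff.mpr hi
  positivity

theorem PRC_cont {n : ℕ} : Continuous (nsq : (Fin n → ℂ) → ℝ) := by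
  unfold nsq
  fun_prop

theorem PRC_entry {n : ℕ} (x : Fin n → ℂ) (i j : Fin n) :
    pr x i j = ((nsq x : ℂ)⁻¹) * (x i * star (x j)) := by
  simp [pr, vecMulVec_apply]

theorem PRC : PRC_stmt := by
  intro n
  refine ⟨?_, ?_, ?_⟩
  · have h1 : ContinuousOn (fun x : Fin n → ℂ => ((nsq x : ℂ)⁻¹)) {x | x ≠ 0} := by
      apply ContinuousOn.inv₀
      · exact (Complex.continuous_ofReal.comp PRC_cont).continuousOn
      · intro x hx
        have := PRC_pos x hx
        exact_mod_cast this.ne'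
    have h2 : Continuous (fun x : Fin n → ℂ => vecMulVec x (star x)) := by
      apply continuous_matrix
      intro i j
      simp only [vecMulVec_apply, Pi.star_apply]
      exact (continuous_apply i).mul (continuous_star.comp (continuous_apply j))
    exact h1.smul h2.continuousOn
  · intro c x hc
    have hn : nsq (c • x) = ‖c‖ ^ 2 * nsq x := by
      unfold nsq
      rw [Finset.mul_sum]
      refine Finset.sum_congr rfl fun i _ => ?_
      simp [mul_pow]
    ext i j
    rw [PRC_entry, PRC_entry, hn]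
    simp only [Pi.smul_apply, smul_eq_mul, star_mul']
    have h3 : c * star c = ((‖c‖ ^ 2 : ℝ) : ℂ) := by
      rw [Complex.star_def, Complex.mul_conj, Complex.normSq_eq_norm_sq]
    have h4 : ((‖c‖ ^ 2 : ℝ) : ℂ) ≠ 0 := by
      have := norm_pos_iff.mpr hc
      exact_mod_cast (pow_pos this 2).ne'
    rw [Complex.ofReal_mul, mul_inv]
    calc ((‖c‖ ^ 2 : ℝ) : ℂ)⁻¹ * (nsq x : ℂ)⁻¹ * (c * x i * (star c * star (x j)))
        = ((‖c‖ ^ 2 : ℝ) : ℂ)⁻¹ * (c * star c) * ((nsq x : ℂ)⁻¹ * (x i * star (x j))) := by ring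
      _ = (nsq x : ℂ)⁻¹ * (x i * star (x j)) := by
        rw [h3, inv_mul_cancel₀ h4, one_mul]
  · intro x y hx hy h
    obtain ⟨j, hj⟩ : ∃ i, x i ≠ 0 := by
      by_contra h
      push Not at h
      exact hx (funext h)
    have e : ∀ i, ((nsq x : ℂ)⁻¹) * (x i * star (x j)) = ((nsq y : ℂ)⁻¹) * (y i * star (y j)) := by
      intro i
      rw [← PRC_entry, ← PRC_entry, h]
    have nx : (nsq x : ℂ) ≠ 0 := by exact_mod_cast (PRC_pos x hx).ne'
    have ny : (nsq y : ℂ) ≠ 0 := by exact_mod_cast (PRC_pos y hy).ne'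
    have hsj : star (x j) ≠ 0 := star_ne_zero.mpr hj
    have hyj : star (y j) ≠ 0 := by
      intro h0
      have := e j
      rw [h0, mul_zero, mul_zero] at this
      exact mul_ne_zero (inv_ne_zero nx) (mul_ne_zero hj hsj) this
    refine ⟨(nsq y : ℂ) * (nsq x : ℂ)⁻¹ * star (x j) * (star (y j))⁻¹, ?_, ?_⟩
    · exact mul_ne_zero (mul_ne_zero (mul_ne_zero ny (inv_ne_zero nx)) hsj) (inv_ne_zero hyj)
    · ext i
      simp only [Pi.smul_apply, smul_eq_mul]
      have := e i
      field_simp at this ⊢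
      linear_combination (-1 : ℂ) * this

end Pool.Agent.TF
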